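import Pool.Agent.W46.HM.Stm2

set_option autoImplicit false

open Finset MeasureTheory
open scoped Classical ENNReal

namespace Pool.Agent.W22.HM
open Pool.Agent.W46.HM Pool.Agent.W46.HD

/-- the box of the cell `c` at the height `j` -/
def Bx {d : ℕ} (N : ℕ) (t0 : ℝ) (j : ℕ) (c : Fin d → ℤ) : Set (ℝ × (Fin d → ℝ)) :=
  {z | z.1 ∈ Set.Ico (t0 + j / N) (t0 + (j + 1) / N) ∧
    ∀ k, z.2 k ∈ Set.Ico (2 * c k / N - (z.1 - t0)) (2 * (c k + 1) / N - (z.1 - t0))}

lemma Bx_meas {d : ℕ} (N : ℕ) (t0 : ℝ) (j : ℕ) (c : Fin d → ℤ) : MeasurableSet (Bx N t0 j c) := by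
  have e : Bx N t0 j c = {z : ℝ × (Fin d → ℝ) | t0 + j / N ≤ z.1} ∩
      {z : ℝ × (Fin d → ℝ) | z.1 < t0 + (j + 1) / N} ∩
      ⋂ k, ({z : ℝ × (Fin d → ℝ) | 2 * (c k : ℝ) / N - (z.1 - t0) ≤ z.2 k} ∩
        {z : ℝ × (Fin d → ℝ) | z.2 k < 2 * ((c k : ℝ) + 1) / N - (z.1 - t0)}) := by
    ext z
    simp only [Bx, Set.mem_ofPred_eq, Set.mem_Ico, Set.mem_inter_iff, Set.mem_iInter]
  rw [e]
  have m1 : Measurable fun z : ℝ × (Fin d → ℝ) => z.1 := measurable_fst
  have m2 : ∀ k, Measurable fun z : ℝ × (Fin d → ℝ) => z.2 k := fun k =>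
    (measurable_pi_apply k).comp measurable_snd
  refine ((measurableSet_le measurable_const m1).inter (measurableSet_lt m1 measurable_const)).inter
    (MeasurableSet.iInter fun k => ?_)
  exact (measurableSet_le (measurable_const.sub (m1.sub measurable_const)) (m2 k)).inter
    (measurableSet_lt (m2 k) (measurable_const.sub (m1.sub measurable_const)))

lemma Bx_vol {d : ℕ} {N : ℕ} (hN : 1 ≤ N) (t0 : ℝ) (j : ℕ) (c : Fin d → ℤ) :
    volume (Bx N t0 j c) ≤ ENNReal.ofReal (2 ^ d * (N : ℝ) ^ (-((d : ℝ) + 1))) := by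
  have hN0 : (0 : ℝ) < N := by exact_mod_cast hN
  rw [Measure.volume_eq_prod, Measure.prod_apply (Bx_meas N t0 j c)]
  have h1 : ∀ t : ℝ, (volume : Measure (Fin d → ℝ)) (Prod.mk t ⁻¹' Bx N t0 j c) ≤
      (Set.Ico (t0 + (j : ℝ) / N) (t0 + (j + 1) / N)).indicator
        (fun _ => ENNReal.ofReal ((2 / N) ^ d)) t := by
    intro t
    by_cases ht : t ∈ Set.Ico (t0 + (j : ℝ) / N) (t0 + (j + 1) / N)
    · rw [Set.indicator_of_mem ht]
      have h2 : Prod.mk t ⁻¹' Bx N t0 j c ⊆ Set.pi Set.univ fun k =>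
          Set.Ico (2 * (c k : ℝ) / N - (t - t0)) (2 * (c k + 1) / N - (t - t0)) := by
        intro y hy k _
        exact hy.2 k
      refine (measure_mono h2).trans ?_
      rw [Real.volume_pi_Ico]
      have h3 : ∀ k ∈ (Finset.univ : Finset (Fin d)), ENNReal.ofReal
          (2 * ((c k : ℝ) + 1) / N - (t - t0) - (2 * (c k : ℝ) / N - (t - t0))) =
          ENNReal.ofReal (2 / N) := by
        intro k _
        congr 1
        ring
      rw [Finset.prod_congr rfl h3, Finset.prod_const, Finset.card_univ, Fintype.card_fin,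
        ENNReal.ofReal_pow (by positivity)]
    · rw [Set.indicator_of_notMem ht]
      have h2 : Prod.mk t ⁻¹' Bx N t0 j c = ∅ := by
        ext y
        simp only [Set.mem_preimage, Set.mem_empty_iff_false, iff_false]
        intro hy
        exact ht hy.1
      rw [h2, measure_empty]
  refine (lintegral_mono h1).trans ?_
  rw [lintegral_indicator measurableSet_Ico, setLIntegral_const, Real.volume_Ico,
    ← ENNReal.ofReal_mul (by positivity)]
  refine ENNReal.ofReal_le_ofReal (le_of_eq ?_)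
  have e1 : t0 + ((j : ℝ) + 1) / N - (t0 + j / N) = (N : ℝ)⁻¹ := by
    field_simp
    ring
  rw [e1, Real.rpow_neg hN0.le, Real.rpow_add hN0, Real.rpow_one, Real.rpow_natCast, div_pow]
  field_simp

/-- power of a sum -/
lemma pow_sum_le {α : Type} (O : Finset α) (m : α → ℝ≥0∞) {q : ℝ} (hq : 0 < q) :
    (∑ o ∈ O, m o) ^ q ≤ (O.card : ℝ≥0∞) ^ q * ∑ o ∈ O, m o ^ q := by
  have h1 : ∀ o ∈ O, m o ≤ (∑ o ∈ O, m o ^ q) ^ (1 / q) := by
    intro o ho
    have h2 : m o ^ q ≤ ∑ o ∈ O, m o ^ q :=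
      Finset.single_le_sum (f := fun o => m o ^ q) (fun _ _ => zero_le) ho
    calc m o = (m o ^ q) ^ (1 / q) := by
          rw [← ENNReal.rpow_mul, mul_one_div_cancel hq.ne', ENNReal.rpow_one]
      _ ≤ _ := ENNReal.rpow_le_rpow h2 (by positivity)
  calc (∑ o ∈ O, m o) ^ q ≤ (∑ _o ∈ O, (∑ o ∈ O, m o ^ q) ^ (1 / q)) ^ q :=
        ENNReal.rpow_le_rpow (Finset.sum_le_sum h1) hq.le
    _ = _ := by
        rw [Finset.sum_const, nsmul_eq_mul, ENNReal.mul_rpow_of_nonneg _ _ hq.le,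
          ← ENNReal.rpow_mul, one_div_mul_cancel hq.ne', ENNReal.rpow_one]

/-- the offsets -/
noncomputable def Off (d K : ℕ) : Finset (Fin d → ℤ) := Fintype.piFinset fun _ => Finset.Icc (-(K : ℤ)) K

lemma cell_near {N : ℕ} (hN : 1 ≤ N) {R r t0 t p w y : ℝ} {j K : ℕ} (hr : N * r ≤ R)
    (hK : R + 3 ≤ K) (hw : |w| ≤ 1) (hj1 : (j : ℝ) ≤ N * (t - t0)) (hj2 : N * (t - t0) < j + 1)
    (h : |y - (p + t * w)| ≤ r) :
    |⌊(N : ℝ) * (p + t0 * w) / 2 + (j : ℝ) * ((w + 1) / 2)⌋ - ⌊(N : ℝ) * (y + (t - t0)) / 2⌋|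
      ≤ (K : ℤ) := by
  have hN0 : (0 : ℝ) < N := by exact_mod_cast hN
  set a : ℝ := (N : ℝ) * (p + t0 * w) / 2 + (j : ℝ) * ((w + 1) / 2) with ha
  set b : ℝ := (N : ℝ) * (y + (t - t0)) / 2 with hb
  have hw' := abs_le.1 hw
  have h' := abs_le.1 h
  have e : b - a = N * (y - (p + t * w)) / 2 + (N * (t - t0) - j) * ((w + 1) / 2) := by
    rw [ha, hb]; ring
  have h1 : N * (y - (p + t * w)) ≤ R := by nlinarith
  have h2 : -R ≤ N * (y - (p + t * w)) := by nlinarith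
  have h3 : 0 ≤ (N * (t - t0) - j) * ((w + 1) / 2) := mul_nonneg (by linarith) (by linarith)
  have h4 : (N * (t - t0) - j) * ((w + 1) / 2) ≤ 1 := by nlinarith
  have hR : 0 ≤ R := by linarith
  have f1 := Int.floor_le a
  have f2 := Int.lt_floor_add_one a
  have f3 := Int.floor_le b
  have f4 := Int.lt_floor_add_one b
  have h5 : |((⌊a⌋ : ℝ) - ⌊b⌋)| ≤ K := by
    rw [abs_le]
    constructor
    · linarith
    · linarith
  exact_mod_cast h5

theorem WIN (q : ℝ) (h : S_MOM q) : S_WIN q := by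
  intro d hd hq R hR
  have hd0 : (0 : ℝ) < d := by
    have : (25 : ℝ) ≤ d := by exact_mod_cast hd
    linarith
  have hq1 : 1 < q := by
    have : 0 < (16752 / 10000) / (d : ℝ) := by positivity
    linarith
  have hq0 : 0 < q := by linarith
  have hqd : 0 < q - 1 / (d : ℝ) := by
    have h1 : 1 / (d : ℝ) ≤ 1 := by
      rw [div_le_one hd0]
      have : (25 : ℝ) ≤ d := by exact_mod_cast hd
      linarith
    linarith
  obtain ⟨C0, hC0, hM⟩ := h d hd hq
  set K : ℕ := ⌈R + 3⌉₊ with hKdef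
  have hK : R + 3 ≤ K := Nat.le_ceil _
  set O : Finset (Fin d → ℤ) := Off d K with hO
  refine ⟨(O.card : ℝ) ^ (q + 1) * 2 ^ d * C0, by positivity, ?_⟩
  intro N Ω _ P v t0 r hN hr hNr hv hinj
  have hN0 : (0 : ℝ) < N := by exact_mod_cast hN
  rcases isEmpty_or_nonempty Ω with hE | hE
  · refine le_trans (le_of_eq ?_) (zero_le)
    simp only [Finset.univ_eq_empty, Finset.sum_empty, ENNReal.zero_rpow_of_pos hq0]
    exact lintegral_zero
  set D : Ω → Fin d → ℝ := fun ω k => (v ω k + 1) / 2 with hD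
  set A : Ω → Fin d → ℝ := fun ω k => (N : ℝ) * (P ω k + t0 * v ω k) / 2 with hA
  have hfam : IsFam N D := by
    refine ⟨hN, fun ω i => ?_, fun ω i => ?_, hinj⟩
    · have := abs_le.1 (hv ω i)
      simp only [hD]
      linarith
    · have := abs_le.1 (hv ω i)
      simp only [hD]
      linarith
  set F : Finset (Fin N × (Fin d → ℤ)) :=
    Finset.univ.image fun x : Fin N × Ω => (x.1, cell A D x.1 x.2) with hF
  have hMF := hM N Ω A D hfam F
  -- the pointwise bound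
  have hpt : ∀ z ∈ Set.Ico t0 (t0 + 1) ×ˢ (Set.univ : Set (Fin d → ℝ)),
      (∑ ω, (if (∀ k, |z.2 k - (P ω k + z.1 * v ω k)| ≤ r) then (1 : ℝ≥0∞) else 0)) ^ q ≤
      ∑ o ∈ O, ∑ x ∈ F, ((O.card : ℝ≥0∞) ^ q * ((mult A D x.1 x.2 : ℕ) : ℝ≥0∞) ^ q) *
        (Bx N t0 x.1 (x.2 - o)).indicator 1 z := by
    rintro ⟨t, y⟩ hz
    have ht : t0 ≤ t ∧ t < t0 + 1 := by
      have := hz.1
      exact this
    have hnn : 0 ≤ (N : ℝ) * (t - t0) := mul_nonneg hN0.le (by linarith [ht.1])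
    have hlt : ⌊(N : ℝ) * (t - t0)⌋₊ < N := by
      rw [Nat.floor_lt hnn]
      have : t - t0 < 1 := by linarith [ht.2]
      nlinarith
    set j : Fin N := ⟨⌊(N : ℝ) * (t - t0)⌋₊, hlt⟩ with hj
    have hj1 : ((j : ℕ) : ℝ) ≤ N * (t - t0) := Nat.floor_le hnn
    have hj2 : N * (t - t0) < ((j : ℕ) : ℝ) + 1 := Nat.lt_floor_add_one _
    set c : Fin d → ℤ := fun k => ⌊(N : ℝ) * (y k + (t - t0)) / 2⌋ with hc
    have hzB : (t, y) ∈ Bx N t0 j c := by
      refine ⟨⟨?_, ?_⟩, fun k => ⟨?_, ?_⟩⟩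
      · have : ((j : ℕ) : ℝ) / N ≤ t - t0 := by
          rw [div_le_iff₀ hN0]; linarith
        simp only
        linarith
      · have : t - t0 < (((j : ℕ) : ℝ) + 1) / N := by
          rw [lt_div_iff₀ hN0]; linarith
        simp only
        linarith
      · have h1 : (c k : ℝ) ≤ (N : ℝ) * (y k + (t - t0)) / 2 := Int.floor_le _
        have h2 : 2 * (c k : ℝ) / N ≤ y k + (t - t0) := by
          rw [div_le_iff₀ hN0]; linarith
        simp only
        linarith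
      · have h1 : (N : ℝ) * (y k + (t - t0)) / 2 < (c k : ℝ) + 1 := Int.lt_floor_add_one _
        have h2 : y k + (t - t0) < 2 * ((c k : ℝ) + 1) / N := by
          rw [lt_div_iff₀ hN0]; linarith
        simp only
        linarith
    have h1 : (∑ ω, (if (∀ k, |y k - (P ω k + t * v ω k)| ≤ r) then (1 : ℝ≥0∞) else 0)) ≤
        ∑ o ∈ O, ((mult A D j (c + o) : ℕ) : ℝ≥0∞) := by
      have h2 : ∀ ω, (if (∀ k, |y k - (P ω k + t * v ω k)| ≤ r) then (1 : ℝ≥0∞) else 0) ≤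
          ∑ o ∈ O, if cell A D j ω = c + o then (1 : ℝ≥0∞) else 0 := by
        intro ω
        split_ifs with hω
        · have h3 : cell A D j ω - c ∈ O := by
            rw [hO, Off, Fintype.mem_piFinset]
            intro k
            rw [Finset.mem_Icc, ← abs_le]
            exact cell_near hN hNr hK (hv ω k) hj1 hj2 (hω k)
          refine le_trans ?_ (Finset.single_le_sum
            (f := fun o => if cell A D j ω = c + o then (1 : ℝ≥0∞) else 0)
            (fun _ _ => zero_le) h3)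
          simp
        · exact zero_le
      refine (Finset.sum_le_sum fun ω _ => h2 ω).trans (le_of_eq ?_)
      rw [Finset.sum_comm]
      refine Finset.sum_congr rfl fun o _ => ?_
      rw [Finset.sum_boole]
      rfl
    have h3 : ∀ o ∈ O, ((mult A D j (c + o) : ℕ) : ℝ≥0∞) ^ q ≤
        ∑ x ∈ F, ((mult A D x.1 x.2 : ℕ) : ℝ≥0∞) ^ q *
          (Bx N t0 x.1 (x.2 - o)).indicator 1 (t, y) := by
      intro o _
      rcases Nat.eq_zero_or_pos (mult A D j (c + o)) with h0 | h0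
      · rw [h0, Nat.cast_zero, ENNReal.zero_rpow_of_pos hq0]
        exact zero_le
      · have h4 : (j, c + o) ∈ F := by
          unfold mult at h0
          rw [gt_iff_lt, Finset.card_pos] at h0
          obtain ⟨ω, hω⟩ := h0
          rw [Finset.mem_filter] at hω
          rw [hF, Finset.mem_image]
          exact ⟨(j, ω), Finset.mem_univ _, by rw [← hω.2]⟩
        refine le_trans ?_ (Finset.single_le_sum
          (f := fun x : Fin N × (Fin d → ℤ) => ((mult A D x.1 x.2 : ℕ) : ℝ≥0∞) ^ q *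
            (Bx N t0 x.1 (x.2 - o)).indicator 1 (t, y)) (fun _ _ => zero_le) h4)
        simp only [add_sub_cancel_right]
        rw [Set.indicator_of_mem hzB, Pi.one_apply, mul_one]
    calc (∑ ω, (if (∀ k, |y k - (P ω k + t * v ω k)| ≤ r) then (1 : ℝ≥0∞) else 0)) ^ q
        ≤ (∑ o ∈ O, ((mult A D j (c + o) : ℕ) : ℝ≥0∞)) ^ q := ENNReal.rpow_le_rpow h1 hq0.le
      _ ≤ (O.card : ℝ≥0∞) ^ q * ∑ o ∈ O, ((mult A D j (c + o) : ℕ) : ℝ≥0∞) ^ q :=
          pow_sum_le O _ hq0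
      _ ≤ (O.card : ℝ≥0∞) ^ q * ∑ o ∈ O, ∑ x ∈ F, ((mult A D x.1 x.2 : ℕ) : ℝ≥0∞) ^ q *
          (Bx N t0 x.1 (x.2 - o)).indicator 1 (t, y) := by
          gcongr with o ho
          exact h3 o ho
      _ = _ := by
          rw [Finset.mul_sum]
          refine Finset.sum_congr rfl fun o _ => ?_
          rw [Finset.mul_sum]
          refine Finset.sum_congr rfl fun x _ => ?_
          rw [mul_assoc]
  have hWm : MeasurableSet (Set.Ico t0 (t0 + 1) ×ˢ (Set.univ : Set (Fin d → ℝ))) :=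
    measurableSet_Ico.prod MeasurableSet.univ
  refine (setLIntegral_mono' hWm hpt).trans ?_
  refine (setLIntegral_le_lintegral _ _).trans ?_
  have hmeas : ∀ (o : Fin d → ℤ) (x : Fin N × (Fin d → ℤ)), Measurable fun z =>
      ((O.card : ℝ≥0∞) ^ q * ((mult A D x.1 x.2 : ℕ) : ℝ≥0∞) ^ q) *
        (Bx N t0 x.1 (x.2 - o)).indicator (1 : ℝ × (Fin d → ℝ) → ℝ≥0∞) z := by
    intro o x
    exact (measurable_one.indicator (Bx_meas _ _ _ _)).const_mul _
  rw [lintegral_finsetSum _ fun o _ => Finset.measurable_sum _ fun x _ => hmeas o x]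
  have hint : ∀ o ∈ O, ∫⁻ z, ∑ x ∈ F, ((O.card : ℝ≥0∞) ^ q *
      ((mult A D x.1 x.2 : ℕ) : ℝ≥0∞) ^ q) * (Bx N t0 x.1 (x.2 - o)).indicator 1 z ≤
      (O.card : ℝ≥0∞) ^ q * ENNReal.ofReal (2 ^ d * (N : ℝ) ^ (-((d : ℝ) + 1))) *
        ∑ x ∈ F, ((mult A D x.1 x.2 : ℕ) : ℝ≥0∞) ^ q := by
    intro o _
    rw [lintegral_finsetSum _ fun x _ => hmeas o x, Finset.mul_sum]
    refine Finset.sum_le_sum fun x _ => ?_
    rw [lintegral_const_mul _ (measurable_one.indicator (Bx_meas _ _ _ _)),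
      lintegral_indicator_one (Bx_meas _ _ _ _)]
    calc (O.card : ℝ≥0∞) ^ q * ((mult A D x.1 x.2 : ℕ) : ℝ≥0∞) ^ q *
          volume (Bx N t0 x.1 (x.2 - o))
        ≤ (O.card : ℝ≥0∞) ^ q * ((mult A D x.1 x.2 : ℕ) : ℝ≥0∞) ^ q *
          ENNReal.ofReal (2 ^ d * (N : ℝ) ^ (-((d : ℝ) + 1))) := by
          gcongr
          exact Bx_vol hN _ _ _
      _ = _ := by ring
  refine (Finset.sum_le_sum hint).trans ?_
  rw [Finset.sum_const, nsmul_eq_mul]
  have hsum : ∑ x ∈ F, ((mult A D x.1 x.2 : ℕ) : ℝ≥0∞) ^ q =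
      ENNReal.ofReal (∑ x ∈ F, ((mult A D x.1 x.2 : ℕ) : ℝ) ^ q) := by
    rw [ENNReal.ofReal_sum_of_nonneg fun x _ => by positivity]
    refine Finset.sum_congr rfl fun x _ => ?_
    rw [← ENNReal.ofReal_rpow_of_nonneg (Nat.cast_nonneg _) hq0.le, ENNReal.ofReal_natCast]
  have hOc : (O.card : ℝ≥0∞) ^ q = ENNReal.ofReal ((O.card : ℝ) ^ q) := by
    rw [← ENNReal.ofReal_rpow_of_nonneg (Nat.cast_nonneg _) hq0.le, ENNReal.ofReal_natCast]
  rw [hsum, hOc, ← ENNReal.ofReal_natCast, ← ENNReal.ofReal_mul (by positivity),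
    ← ENNReal.ofReal_mul (by positivity), ← ENNReal.ofReal_mul (by positivity)]
  refine ENNReal.ofReal_le_ofReal ?_
  have hNpow : (N : ℝ) ^ (-((d : ℝ) + 1)) * N = (N : ℝ) ^ (-(d : ℝ)) := by
    have : (N : ℝ) ^ (-(d : ℝ)) = (N : ℝ) ^ (-((d : ℝ) + 1) + 1) := by
      congr 1
      ring
    rw [this, Real.rpow_add hN0, Real.rpow_one]
  calc (O.card : ℝ) * ((O.card : ℝ) ^ q * (2 ^ d * (N : ℝ) ^ (-((d : ℝ) + 1))) *
        ∑ x ∈ F, ((mult A D x.1 x.2 : ℕ) : ℝ) ^ q)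
      ≤ (O.card : ℝ) * ((O.card : ℝ) ^ q * (2 ^ d * (N : ℝ) ^ (-((d : ℝ) + 1))) *
        (C0 * N * (Fintype.card Ω : ℝ) ^ (q - 1 / (d : ℝ)))) := by
        gcongr
    _ = ((O.card : ℝ) ^ q * O.card) * 2 ^ d * C0 * ((N : ℝ) ^ (-((d : ℝ) + 1)) * N) *
        (Fintype.card Ω : ℝ) ^ (q - 1 / (d : ℝ)) := by ring
    _ = _ := by
        rw [hNpow]
        congr 4
        rcases Nat.eq_zero_or_pos O.card with h0 | h0
        · rw [h0, Nat.cast_zero, mul_zero, Real.zero_rpow (by linarith)]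
        · rw [Real.rpow_add (by exact_mod_cast h0), Real.rpow_one]

end Pool.Agent.W22.HM
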