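import Pool.Agent.W707.HM.Stm

set_option autoImplicit false

/-!
# Project HM, part ISO

An isotropic and positively homogeneous function of degree `p ≥ 1` on real `2 × 2` matrices is
`s ^ p * f (v / s)`, with `s` the operator norm and `s v` the determinant.
-/

namespace Pool.Agent.W22.HM

open Matrix
open Pool.Agent.W707.HM Pool.Agent.W360.MQ

/-- rotation -/
noncomputable def rot (a : ℝ) : Matrix (Fin 2) (Fin 2) ℝ :=
  !![Real.cos a, -Real.sin a; Real.sin a, Real.cos a]

theorem rot_mem (a : ℝ) : rot a ∈ Matrix.specialOrthogonalGroup (Fin 2) ℝ := by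
  have h := Real.sin_sq_add_cos_sq a
  rw [Matrix.mem_specialOrthogonalGroup_iff, Matrix.mem_orthogonalGroup_iff]
  constructor
  · ext i j
    fin_cases i <;> fin_cases j <;>
      simp [rot, Matrix.mul_apply, Fin.sum_univ_two] <;>
      linarith [h]
  · rw [rot, Matrix.det_fin_two_of]
    linarith [h]

theorem entries (A : Matrix (Fin 2) (Fin 2) ℝ) :
    A 0 0 = (cab A).1.re + (cab A).2.re ∧ A 1 1 = (cab A).1.re - (cab A).2.re ∧
    A 1 0 = (cab A).1.im + (cab A).2.im ∧ A 0 1 = (cab A).2.im - (cab A).1.im := by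
  refine ⟨?_, ?_, ?_, ?_⟩ <;> simp [cab] <;> ring

theorem mat_ext {a b c d a' b' c' d' : ℝ} (h1 : a = a') (h2 : b = b') (h3 : c = c')
    (h4 : d = d') : !![a, b; c, d] = !![a', b'; c', d'] := by
  rw [h1, h2, h3, h4]

theorem normal_form (A : Matrix (Fin 2) (Fin 2) ℝ) :
    ∃ a b : ℝ, rot a * A * rot b =
      !![‖(cab A).1‖ + ‖(cab A).2‖, 0; 0, ‖(cab A).1‖ - ‖(cab A).2‖] := by
  obtain ⟨e00, e11, e10, e01⟩ := entries A
  set z := (cab A).1
  set w := (cab A).2
  set a := -(Complex.arg z + Complex.arg w) / 2 with ha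
  set b := (Complex.arg w - Complex.arg z) / 2 with hb
  have h1 : Complex.arg z = -(a + b) := by rw [ha, hb]; ring
  have h2 : Complex.arg w = b - a := by rw [ha, hb]; ring
  have z1 : z.re = ‖z‖ * Real.cos (a + b) := by
    rw [← Real.cos_neg (a + b), ← h1]; exact (Complex.norm_mul_cos_arg z).symm
  have z2 : z.im = -(‖z‖ * Real.sin (a + b)) := by
    rw [← mul_neg, ← Real.sin_neg (a + b), ← h1]; exact (Complex.norm_mul_sin_arg z).symm
  have w1 : w.re = ‖w‖ * Real.cos (b - a) := by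
    rw [← h2]; exact (Complex.norm_mul_cos_arg w).symm
  have w2 : w.im = ‖w‖ * Real.sin (b - a) := by
    rw [← h2]; exact (Complex.norm_mul_sin_arg w).symm
  refine ⟨a, b, ?_⟩
  rw [Matrix.eta_fin_two A, rot, rot]
  rw [z1, w1] at e00 e11
  rw [z2, w2] at e10 e01
  rw [Real.cos_add, Real.cos_sub] at e00 e11
  rw [Real.sin_add, Real.sin_sub] at e10 e01
  have ca := Real.sin_sq_add_cos_sq a
  have cb := Real.sin_sq_add_cos_sq b
  generalize Real.cos a = x at *
  generalize Real.sin a = y at *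
  generalize Real.cos b = c at *
  generalize Real.sin b = d at *
  rw [Matrix.mul_fin_two, Matrix.mul_fin_two, e00, e11, e10, e01]
  refine mat_ext ?_ ?_ ?_ ?_
  · linear_combination (‖z‖ + ‖w‖) * ((c ^ 2 + d ^ 2) * ca + cb)
  · ring
  · ring
  · linear_combination (‖z‖ - ‖w‖) * ((c ^ 2 + d ^ 2) * ca + cb)

theorem main : S_ISO := by
  intro p W hp hI hH
  refine ⟨fun t => W !![1, 0; 0, t], ?_⟩
  funext A
  show W A = (‖(cab A).1‖ + ‖(cab A).2‖) ^ p *
    W !![1, 0; 0, (‖(cab A).1‖ - ‖(cab A).2‖) / (‖(cab A).1‖ + ‖(cab A).2‖)]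
  obtain ⟨a, b, hab⟩ := normal_form A
  have h1 : W A = W !![‖(cab A).1‖ + ‖(cab A).2‖, 0; 0, ‖(cab A).1‖ - ‖(cab A).2‖] := by
    rw [← hab, hI _ (rot_mem a) _ (rot_mem b)]
  set r := ‖(cab A).1‖ with hr
  set q := ‖(cab A).2‖ with hq
  have hr0 : 0 ≤ r := norm_nonneg _
  have hq0 : 0 ≤ q := norm_nonneg _
  rcases (add_nonneg hr0 hq0).eq_or_lt with h0 | h0
  · have hr1 : r = 0 := by linarith
    have hq1 : q = 0 := by linarith
    have hW : W 0 = 0 := by
      have h2 := hH 2 (by norm_num) 0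
      rw [smul_zero] at h2
      have h3 : (1 : ℝ) < 2 ^ p := Real.one_lt_rpow (by norm_num) (by linarith)
      have h4 : (2 ^ p - 1) * W 0 = 0 := by linarith
      rcases mul_eq_zero.mp h4 with h5 | h5
      · linarith
      · exact h5
    have h2 : (!![r + q, 0; 0, r - q] : Matrix (Fin 2) (Fin 2) ℝ) = 0 := by
      rw [hr1, hq1]
      ext i j
      fin_cases i <;> fin_cases j <;> simp
    rw [h1, h2, hW, hr1, hq1, add_zero, Real.zero_rpow (by linarith), zero_mul]
  · rw [h1, ← hH _ h0]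
    congr 1
    ext i j
    fin_cases i <;> fin_cases j <;> simp
    field_simp

end Pool.Agent.W22.HM
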